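import Pool.Agent.TH211.AF.Final

/-!
The discriminant exponent `p(n, d)` of the associated-form contravariant is `1` for all `n ≥ 2` and
`d ≥ 3`; more precisely, for every exponent vector `β` with `|β| = n (d - 2)` the smallest integer
`p_β` such that `Δ ^ p_β μ_β` is a polynomial is `1`, unless `μ_β` is identically zero.
-/

set_option autoImplicit false

namespace Pool.Agent.Results.MP_ee1e03_al.ExponentIsOne

open MvPolynomial Pool.Agent.TH211.AF

noncomputable section

variable {n d : ℕ}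

/-- `z ^ β = m H_f` in `M_f = ℂ[z] / (∂₁f, …, ∂ₙf)`, for the form `f` with coefficient vector `c` -/
def IsResidue (c : Expo n d → ℂ) (β : Expo n (n * (d - 2))) (m : ℂ) : Prop :=
  (monomial β.1 1 : MvPolynomial (Fin n) ℂ) - C m * hess c ∈ jac c

open Classical in
/-- the number `μ_β(f)` with `z ^ β = μ_β(f) H_f` in `M_f` (for nondegenerate forms it exists and is
unique; the value `0` in the other case is irrelevant) -/
def mu (c : Expo n d → ℂ) (β : Expo n (n * (d - 2))) : ℂ :=
  if h : ∃ m, IsResidue c β m then h.choose else 0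

/-- `Δ ^ p μ_β` is a polynomial function on the space of all forms (`p` any integer) -/
def PolynomialAt (Δ : MvPolynomial (Expo n d) ℂ) (β : Expo n (n * (d - 2))) (p : ℤ) : Prop :=
  ∃ G : MvPolynomial (Expo n d) ℂ, ∀ c : Expo n d → ℂ, Nondegenerate c →
    eval c Δ ^ p * mu c β = eval c G

/-- `p = p(n, d)`: the maximum over all `β` of the smallest integer `p_β` such that `Δ ^ p_β μ_β` is
a polynomial -/
def IsExponent (Δ : MvPolynomial (Expo n d) ℂ) (p : ℤ) : Prop :=
  IsGreatest {r : ℤ | ∃ β : Expo n (n * (d - 2)), IsLeast {m : ℤ | PolynomialAt Δ β m} r} p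

lemma residue_unique' (hn : 1 ≤ n) (hd : 2 ≤ d) {c : Expo n d → ℂ} (hc : Nondegenerate c)
    {β : Expo n (n * (d - 2))} {m m' : ℂ} (h : IsResidue c β m) (h' : IsResidue c β m') :
    m = m' := by
  by_contra hne
  have h1 := Ideal.sub_mem _ h' h
  have h2 : ((monomial β.1 1 : MvPolynomial (Fin n) ℂ) - C m' * hess c) -
      ((monomial β.1 1 : MvPolynomial (Fin n) ℂ) - C m * hess c) = C (m - m') * hess c := by
    rw [C_sub]; ring
  rw [h2] at h1
  have h3 := Ideal.mul_mem_left _ (C (m - m')⁻¹) h1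
  rw [← mul_assoc, ← C_mul, inv_mul_cancel₀ (sub_ne_zero.mpr hne), C_1, one_mul] at h3
  exact hess_not_mem hn hd c hc h3

lemma residue_of (c : Expo n d → ℂ) (Δ : CA n d) (hΔ : eval c Δ ≠ 0)
    (β : Expo n (n * (d - 2))) (e : CA n d)
    (he : C Δ * monomial β.1 1 - C e * hess (X : Expo n d → CA n d) ∈
      jac (X : Expo n d → CA n d)) : IsResidue c β (eval c e / eval c Δ) := by
  have h2 := spz_jac c he
  rw [map_sub, map_mul, map_mul, spz_hess] at h2
  have h3 : spz c (C Δ) = C (eval c Δ) := by unfold spz; rw [map_C]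
  have h4 : spz c (C e) = C (eval c e) := by unfold spz; rw [map_C]
  have h5 : spz c (monomial β.1 1) = monomial β.1 1 := by
    unfold spz; rw [map_monomial, map_one]
  rw [h3, h4, h5] at h2
  have h6 := Ideal.mul_mem_left _ (C (eval c Δ)⁻¹) h2
  rw [mul_sub, ← mul_assoc, ← mul_assoc, ← C_mul, ← C_mul, inv_mul_cancel₀ hΔ, C_1,
    one_mul] at h6
  unfold IsResidue
  rwa [div_eq_inv_mul]

lemma exists_residue' (hn : 1 ≤ n) (hd : 2 ≤ d) {c : Expo n d → ℂ} (hc : Nondegenerate c)
    (β : Expo n (n * (d - 2))) : ∃ m, IsResidue c β m := by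
  obtain ⟨a, ha, hca⟩ := exists_van hn hd c hc
  obtain ⟨e, he⟩ := exists_residue hn hd a ha (monomial β.1 1)
    (isHomogeneous_monomial _ (expo_degree β))
  exact ⟨_, residue_of c a (by rw [hca]; exact one_ne_zero) β e he⟩

lemma mu_spec (hn : 1 ≤ n) (hd : 2 ≤ d) {c : Expo n d → ℂ} (hc : Nondegenerate c)
    (β : Expo n (n * (d - 2))) : IsResidue c β (mu c β) := by
  have h := exists_residue' hn hd hc β
  unfold mu
  rw [dif_pos h]
  exact h.choose_spec

lemma mu_eq (hn : 1 ≤ n) (hd : 2 ≤ d) {c : Expo n d → ℂ} (hc : Nondegenerate c)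
    {β : Expo n (n * (d - 2))} {m : ℂ} (h : IsResidue c β m) : mu c β = m :=
  residue_unique' hn hd hc (mu_spec hn hd hc β) h

/-- `Δ μ_β` is a polynomial -/
lemma polynomialAt_one (hn : 1 ≤ n) (hd : 2 ≤ d) {Δ : CA n d} (hΔ : IsDiscriminant n d Δ)
    (β : Expo n (n * (d - 2))) : PolynomialAt Δ β 1 := by
  obtain ⟨e, he⟩ := exists_residue hn hd Δ (van_of_isDiscriminant hΔ) (monomial β.1 1)
    (isHomogeneous_monomial _ (expo_degree β))
  refine ⟨e, fun c hc => ?_⟩
  have h0 : eval c Δ ≠ 0 := fun h => (hΔ.2 c).mp h hc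
  rw [mu_eq hn hd hc (residue_of c Δ h0 β e he), zpow_one]
  field_simp

lemma form_smul (l : ℂ) (c : Expo n d → ℂ) : form (fun α => l * c α) = C l * form c := by
  unfold form
  rw [Finset.mul_sum]
  exact Finset.sum_congr rfl fun α _ => by rw [C_mul_monomial]

lemma hess_smul (l : ℂ) (c : Expo n d → ℂ) :
    hess (fun α => l * c α) = C (l ^ n) * hess c := by
  unfold hess
  have h : (Matrix.of fun i j : Fin n => pderiv i (pderiv j (form fun α => l * c α))) =
      (C l : MvPolynomial (Fin n) ℂ) •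
        (Matrix.of fun i j : Fin n => pderiv i (pderiv j (form c))) := by
    ext1 i j
    simp only [Matrix.of_apply, Matrix.smul_apply, smul_eq_mul]
    rw [form_smul, pderiv_C_mul, pderiv_C_mul]
  rw [h, Matrix.det_smul, Fintype.card_fin, map_pow]

lemma jac_smul {l : ℂ} (hl : l ≠ 0) (c : Expo n d → ℂ) : jac (fun α => l * c α) = jac c := by
  unfold jac
  apply le_antisymm
  · rw [Ideal.span_le]
    rintro _ ⟨i, rfl⟩
    simp only
    rw [form_smul, pderiv_C_mul]
    exact Ideal.mul_mem_left _ _ (Ideal.subset_span ⟨i, rfl⟩)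
  · rw [Ideal.span_le]
    rintro _ ⟨i, rfl⟩
    simp only
    have h : pderiv i (form c) = C l⁻¹ * pderiv i (form fun α => l * c α) := by
      rw [form_smul, pderiv_C_mul, ← mul_assoc, ← C_mul, inv_mul_cancel₀ hl, C_1, one_mul]
    rw [h]
    exact Ideal.mul_mem_left _ _ (Ideal.subset_span ⟨i, rfl⟩)

lemma nondegenerate_smul {l : ℂ} (hl : l ≠ 0) {c : Expo n d → ℂ} (hc : Nondegenerate c) :
    Nondegenerate (fun α => l * c α) := by
  intro z hz
  apply hc z
  intro i
  have h := hz i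
  rw [form_smul, pderiv_C_mul, map_mul, eval_C] at h
  exact (mul_eq_zero.mp h).resolve_left hl

lemma mu_smul (hn : 1 ≤ n) (hd : 2 ≤ d) {l : ℂ} (hl : l ≠ 0) {c : Expo n d → ℂ}
    (hc : Nondegenerate c) (β : Expo n (n * (d - 2))) :
    mu c β = l ^ n * mu (fun α => l * c α) β := by
  apply mu_eq hn hd hc
  have h := mu_spec hn hd (nondegenerate_smul hl hc) β
  unfold IsResidue at h ⊢
  rw [jac_smul hl, hess_smul, ← mul_assoc, ← C_mul, mul_comm (mu _ β)] at h
  exact h

/-- A function `μ_β` which is a polynomial is identically zero, by homogeneity. -/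
lemma eq_zero_of_polynomial (hn : 1 ≤ n) (hd : 2 ≤ d) (β : Expo n (n * (d - 2))) (G : CA n d)
    (hG : ∀ c : Expo n d → ℂ, Nondegenerate c → mu c β = eval c G) (c : Expo n d → ℂ)
    (hc : Nondegenerate c) : mu c β = 0 := by
  let g : Polynomial ℂ := aeval (fun α => Polynomial.C (c α) * Polynomial.X) G
  have hg : ∀ l : ℂ, g.eval l = eval (fun α => l * c α) G := by
    intro l
    have h1 : (Polynomial.evalRingHom l).comp
        (aeval (fun α => Polynomial.C (c α) * Polynomial.X) : CA n d →ₐ[ℂ] Polynomial ℂ).toRingHom =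
        (eval fun α => l * c α) := by
      apply MvPolynomial.ringHom_ext
      · intro r
        simp
      · intro α
        simp only [RingHom.comp_apply, AlgHom.toRingHom_eq_coe, RingHom.coe_coe, aeval_X,
          Polynomial.coe_evalRingHom, Polynomial.eval_mul, Polynomial.eval_C, Polynomial.eval_X,
          eval_X]
        ring
    exact congrArg (fun φ : CA n d →+* ℂ => φ G) h1
  have h2 : ∀ l : ℂ, l ≠ 0 → (Polynomial.X ^ n * g - Polynomial.C (mu c β)).eval l = 0 := by
    intro l hl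
    rw [Polynomial.eval_sub, Polynomial.eval_mul, Polynomial.eval_pow, Polynomial.eval_X,
      Polynomial.eval_C, hg l, ← hG _ (nondegenerate_smul hl hc), ← mu_smul hn hd hl hc β, sub_self]
  have h3 : Polynomial.X ^ n * g - Polynomial.C (mu c β) = 0 := by
    apply Polynomial.eq_zero_of_infinite_isRoot
    refine Set.Infinite.mono (s := {l : ℂ | l ≠ 0}) (fun l hl => h2 l hl) ?_
    have : ({l : ℂ | l ≠ 0} : Set ℂ) = ({0} : Set ℂ)ᶜ := rfl
    rw [this]
    exact (Set.finite_singleton (0 : ℂ)).infinite_compl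
  have h4 := congrArg (Polynomial.eval 0) h3
  rw [Polynomial.eval_sub, Polynomial.eval_mul, Polynomial.eval_pow, Polynomial.eval_X,
    Polynomial.eval_C, zero_pow (by omega), zero_mul, zero_sub, Polynomial.eval_zero] at h4
  exact neg_eq_zero.mp h4

lemma isLeast_one (hn : 1 ≤ n) (hd : 2 ≤ d) {Δ : CA n d} (hΔ : IsDiscriminant n d Δ)
    (β : Expo n (n * (d - 2))) (hβ : ∃ c : Expo n d → ℂ, Nondegenerate c ∧ mu c β ≠ 0) :
    IsLeast {m : ℤ | PolynomialAt Δ β m} 1 := by
  refine ⟨polynomialAt_one hn hd hΔ β, ?_⟩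
  intro m hm
  by_contra hlt
  push Not at hlt
  obtain ⟨G, hG⟩ := hm
  obtain ⟨c, hc, hne⟩ := hβ
  obtain ⟨k, hk⟩ : ∃ k : ℕ, m = -(k : ℤ) := ⟨(-m).toNat, by omega⟩
  apply hne
  refine eq_zero_of_polynomial hn hd β (Δ ^ k * G) (fun c' hc' => ?_) c hc
  have h0 : eval c' Δ ≠ 0 := fun h => (hΔ.2 c').mp h hc'
  rw [map_mul, map_pow, ← hG c' hc', hk, ← mul_assoc, zpow_neg, zpow_natCast,
    mul_inv_cancel₀ (pow_ne_zero _ h0), one_mul]

/-- some `μ_β` is nonzero -/
lemma exists_mu_ne_zero (hn : 1 ≤ n) (hd : 2 ≤ d) :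
    ∃ β : Expo n (n * (d - 2)), ∃ c : Expo n d → ℂ, Nondegenerate c ∧ mu c β ≠ 0 := by
  obtain ⟨c, hc⟩ := exists_nondegenerate (n := n) hd
  by_contra hall
  push Not at hall
  apply hess_not_mem hn hd c hc
  rw [homog_eq_form (hess c) (hess_isHomogeneous c)]
  unfold form
  apply Ideal.sum_mem
  intro β _
  have h1 := mu_spec hn hd hc β
  unfold IsResidue at h1
  rw [hall β c hc, C_0, zero_mul, sub_zero] at h1
  have h2 : (monomial β.1 (coeff β.1 (hess c)) : MvPolynomial (Fin n) ℂ) =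
      C (coeff β.1 (hess c)) * monomial β.1 1 := by
    rw [C_mul_monomial, mul_one]
  rw [h2]
  exact Ideal.mul_mem_left _ _ h1

/-- **Q1.** `p(n, d) = 1` for all `n ≥ 2` and `d ≥ 3`. The discriminant `Δ` exists and is unique up to
a nonzero scalar; for every nondegenerate form and every `β` with `|β| = n (d - 2)` the number `μ_β`
exists and is unique; for every `β` either `μ_β` is identically zero or the smallest integer `p_β`
such that `Δ ^ p_β μ_β` is a polynomial is `1`; and the maximum `p(n, d)` of the `p_β` is `1`. -/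
theorem result (n d : ℕ) (hn : 2 ≤ n) (hd : 3 ≤ d) :
    (∃ Δ, IsDiscriminant n d Δ) ∧
    (∀ Δ Δ', IsDiscriminant n d Δ → IsDiscriminant n d Δ' → ∃ u : ℂ, u ≠ 0 ∧ Δ' = C u * Δ) ∧
    (∀ c : Expo n d → ℂ, Nondegenerate c → ∀ β : Expo n (n * (d - 2)), ∃! m, IsResidue c β m) ∧
    ∀ Δ, IsDiscriminant n d Δ →
      (∀ β : Expo n (n * (d - 2)), (∀ c : Expo n d → ℂ, Nondegenerate c → mu c β = 0) ∨
        IsLeast {m : ℤ | PolynomialAt Δ β m} 1) ∧
      IsExponent Δ 1 := by
  have hn1 : 1 ≤ n := by omega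
  have hd2 : 2 ≤ d := by omega
  refine ⟨exists_discriminant hn1 hd2, discriminant_unique hn1 hd2, fun c hc β => ?_,
    fun Δ hΔ => ⟨fun β => ?_, ?_⟩⟩
  · obtain ⟨m, hm⟩ := exists_residue' hn1 hd2 hc β
    exact ⟨m, hm, fun m' hm' => residue_unique' hn1 hd2 hc hm' hm⟩
  · by_cases h : ∃ c : Expo n d → ℂ, Nondegenerate c ∧ mu c β ≠ 0
    · exact Or.inr (isLeast_one hn1 hd2 hΔ β h)
    · push Not at h
      exact Or.inl h
  · refine ⟨?_, ?_⟩
    · obtain ⟨β, hβ⟩ := exists_mu_ne_zero (n := n) (d := d) hn1 hd2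
      exact ⟨β, isLeast_one hn1 hd2 hΔ β hβ⟩
    · rintro r ⟨β, hβ⟩
      exact hβ.2 (polynomialAt_one hn1 hd2 hΔ β)

end

end Pool.Agent.Results.MP_ee1e03_al.ExponentIsOne
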